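import Mathlib

/-!
# The relation `(κ, η, θ) → ι` and the index type `ω_{ω+1}`
-/

set_option autoImplicit false

open Cardinal

universe u

namespace Pool.Agent.H.MP_5fddfa_lc.CR

/-- The relation `(κ, η, θ) → ι` of the problem file: for every set `S` of cardinality `κ` and
every set mapping `f : S → 𝒫 S` (`x ∉ f x`) of order `κ` (`|f x| < κ` for all `x`) such that
`|⋂ f[X]| < θ` for every `X ⊆ S` with `|X| = η`, there is a set of cardinality `ι` free for `f`. -/
def FreeRel (κ η θ ι : Cardinal.{u}) : Prop :=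
  ∀ (S : Type u) (f : S → Set S), #S = κ → (∀ x, x ∉ f x) → (∀ x, #(f x) < κ) →
    (∀ X : Set S, #X = η → #(⋂ x ∈ X, f x : Set S) < θ) →
    ∃ F : Set S, #F = ι ∧ ∀ x ∈ F, ∀ y ∈ F, x ∉ f y

/-- The well-order of type `ω_{ω+1}` -/
abbrev Wp : Type := (Cardinal.aleph (Ordinal.omega0.{0} + 1)).ord.ToType

end Pool.Agent.H.MP_5fddfa_lc.CR
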