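import Pool.Agent.H.MP_5fddfa_lc.CR.TN
import Pool.Agent.H.MP_5fddfa_lc.CR.Rel
import Pool.Agent.H.MP_353193_lc.BV.T6b

/-!
# The value of the free set relation, from the combinatorial core
-/

set_option autoImplicit false

namespace Pool.Agent.H.MP_5fddfa_lc.CR

open Pool.Agent.H.MP_8ff4bd_gt.M3 Pool.Agent.H.MP_353193_lc.BV
open _root_.M3 _root_.M3.BSet

variable {B : Type} [CompleteBooleanAlgebra B]

theorem str_bSubset' (x y : BSet B) : (str B).bSubset x y = ⨅ z, (bmem z x ⇨ bmem z y) := by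
  unfold BStr.bSubset
  simp only [str_mem]

theorem subset_mem {Γ : B} {x y z : BSet B} (h : Γ ≤ (str B).bSubset x y) (hz : Γ ≤ bmem z x) :
    Γ ≤ bmem z y := by
  rw [str_bSubset'] at h
  exact bv_mp (bv_all h z) hz

theorem leCard_mono_left (a x y : BSet B) :
    (str B).bSubset a x ⊓ bLeCard (str B) x y ≤ bLeCard (str B) a y := by
  rw [t5_leCard, t5_leCard]
  refine bv_exists (f := fun r => t5_cl x y r) inf_le_right fun r Δ hΔ hr => ?_
  have hs : Δ ≤ (str B).bSubset a x := hΔ.trans inf_le_left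
  refine bv_intro (f := fun r => t5_cl a y r) r (le_inf ?_ ?_)
  · refine le_iInf fun t => bv_imp fun E hE ht => ?_
    exact bv_mp (bv_all (hE.trans (bv_left hr)) t) (subset_mem (hE.trans hs) ht)
  · refine le_iInf fun t => le_iInf fun t' => le_iInf fun n => bv_imp fun E hE ht => ?_
    refine bv_mp (bv_all (bv_all (bv_all (hE.trans (bv_right hr)) t) t') n) ?_
    refine le_inf (le_inf (le_inf (le_inf ?_ ?_) ?_) ?_) (bv_right ht)
    · exact subset_mem (hE.trans hs) (bv_left (bv_left (bv_left (bv_left ht))))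
    · exact subset_mem (hE.trans hs) (bv_right (bv_left (bv_left (bv_left ht))))
    · exact bv_right (bv_left (bv_left ht))
    · exact bv_right (bv_left ht)

/-- the restriction of `r` to `x × y` -/
noncomputable def resName (x y r : BSet B) : BSet B :=
  relName x.elt y.elt fun i j => x.bv i ⊓ y.bv j ⊓ pmem (x.elt i) (y.elt j) r

theorem pmem_resName_le {Γ : B} {x y r t n : BSet B} (h : Γ ≤ pmem t n (resName x y r)) :
    Γ ≤ bmem t x ⊓ bmem n y ⊓ pmem t n r := by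
  unfold resName at h
  rw [pmem_relName] at h
  refine bv_exists h fun i Δ hΔ hi => bv_exists hi fun j E hE hj => ?_
  have h1 : E ≤ beq t (x.elt i) := bv_left (bv_right hj)
  have h2 : E ≤ beq n (y.elt j) := bv_right (bv_right hj)
  have h3 : E ≤ pmem (x.elt i) (y.elt j) r := bv_right (bv_left hj)
  refine le_inf (le_inf ?_ ?_) ?_
  · exact bmem_congr_left (beq_symm' h1) ((bv_left (bv_left (bv_left hj))).trans (bv_le_bmem x i))
  · exact bmem_congr_left (beq_symm' h2) ((bv_right (bv_left (bv_left hj))).trans (bv_le_bmem y j))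
  · have h4 : E ≤ pmem t (y.elt j) r := (ext_pmem₁ (y.elt j) r).le (beq_symm' h1) h3
    exact (ext_pmem₂ t r).le (beq_symm' h2) h4

theorem le_pmem_resName {Γ : B} {x y r t n : BSet B} (ht : Γ ≤ bmem t x) (hn : Γ ≤ bmem n y)
    (h : Γ ≤ pmem t n r) : Γ ≤ pmem t n (resName x y r) := by
  unfold resName
  rw [pmem_relName]
  unfold bmem at ht hn
  refine bv_exists ht fun i Δ hΔ hi => bv_exists (hΔ.trans hn) fun j E hE hj => ?_
  have h1 : E ≤ beq t (x.elt i) := hE.trans (bv_right hi)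
  have h2 : E ≤ beq n (y.elt j) := bv_right hj
  refine bv_intro (f := fun i => ⨆ j, (x.bv i ⊓ y.bv j ⊓ pmem (x.elt i) (y.elt j) r) ⊓
    (beq t (x.elt i) ⊓ beq n (y.elt j))) i ?_
  refine bv_intro (f := fun j => (x.bv i ⊓ y.bv j ⊓ pmem (x.elt i) (y.elt j) r) ⊓
    (beq t (x.elt i) ⊓ beq n (y.elt j))) j ?_
  refine le_inf (le_inf (le_inf (hE.trans (bv_left hi)) (bv_left hj)) ?_) (le_inf h1 h2)
  have h4 : E ≤ pmem (x.elt i) n r := (ext_pmem₁ n r).le h1 ((hE.trans hΔ).trans h)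
  exact (ext_pmem₂ (x.elt i) r).le h2 h4

theorem leCard_mono_right (x y z : BSet B) :
    (str B).bSubset y z ⊓ bLeCard (str B) x y ≤ bLeCard (str B) x z := by
  rw [t5_leCard, t5_leCard]
  refine bv_exists (f := fun r => t5_cl x y r) inf_le_right fun r Δ hΔ hr => ?_
  have hs : Δ ≤ (str B).bSubset y z := hΔ.trans inf_le_left
  refine bv_intro (f := fun r => t5_cl x z r) (resName x y r) (le_inf ?_ ?_)
  · refine le_iInf fun t => bv_imp fun E hE ht => ?_
    refine bv_exists (bv_mp (bv_all (hE.trans (bv_left hr)) t) ht) fun n F hF hn => ?_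
    refine bv_intro (f := fun n => bmem n z ⊓ pmem t n (resName x y r)) n (le_inf ?_ ?_)
    · exact subset_mem ((hF.trans hE).trans hs) (bv_left hn)
    · exact le_pmem_resName (hF.trans ht) (bv_left hn) (bv_right hn)
  · refine le_iInf fun t => le_iInf fun t' => le_iInf fun n => bv_imp fun E hE ht => ?_
    have h1 := pmem_resName_le (bv_right (bv_left ht))
    have h2 := pmem_resName_le (bv_right ht)
    refine bv_mp (bv_all (bv_all (bv_all (hE.trans (bv_right hr)) t) t') n) ?_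
    refine le_inf (le_inf (le_inf (le_inf ?_ ?_) ?_) (bv_right h1)) (bv_right h2)
    · exact bv_left (bv_left h1)
    · exact bv_left (bv_left h2)
    · exact bv_right (bv_left h1)

theorem mk_Wp : Cardinal.mk Wp = Cardinal.aleph (Ordinal.omega0.{0} + 1) := by
  rw [Cardinal.mk_toType, Cardinal.card_ord]

theorem mk_Wω : Cardinal.mk Wω = Cardinal.aleph Ordinal.omega0.{0} := by
  rw [Cardinal.mk_toType, Cardinal.card_ord]

theorem aleph_succ : Cardinal.aleph (Ordinal.omega0.{0} + 1) =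
    Order.succ (Cardinal.aleph Ordinal.omega0.{0}) := (Cardinal.succ_aleph _).symm

theorem wp_mk_le (a : Wp) : Cardinal.mk {b : Wp // b < a} ≤ Cardinal.mk Wω := by
  have h1 := Ordinal.typein_lt_self (o := (Cardinal.aleph (Ordinal.omega0.{0} + 1)).ord) a
  rw [Cardinal.lt_ord] at h1
  have h2 : Cardinal.mk {b : Wp // b < a} < Order.succ (Cardinal.aleph Ordinal.omega0.{0}) :=
    lt_of_lt_of_eq h1 aleph_succ
  rw [mk_Wω]
  exact Order.lt_succ_iff.1 h2

theorem leCard_vN_top (a : Wp) : bLeCard (str B) (vN a : BSet B) (wN Wω) = ⊤ := by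
  obtain ⟨e⟩ := Cardinal.le_def _ _ |>.1 (wp_mk_le a)
  rw [vN_eq_fam a, wN_eq_fam]
  exact leCard_fam_top _ discrete_vN e

/-- `bOrd_wN`, `leCard_fam_bot` for `¬ LeCard s w`, `leCard_fam_top` for `LeCard (vN c) w` -/
theorem hart_wN (hB : BCCC B) : bHart (str B) (wN Wω) (wN Wp : BSet B) = ⊤ := by
  unfold bHart
  simp only [str_mem, str_bOrd]
  rw [eq_top_iff]
  refine le_inf (le_inf bOrd_wN.ge ?_) ?_
  · have h1 : bLeCard (str B) (wN Wp : BSet B) (wN Wω) = ⊥ := by
      rw [wN_eq_fam, wN_eq_fam]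
      refine leCard_fam_bot hB discrete_vN _ ?_
      rw [mk_Wp, mk_Wω, aleph_succ, max_eq_left (Cardinal.aleph0_le_aleph _)]
      exact Order.lt_succ _
    rw [h1, compl_bot]
  · have h1 : (⨅ c, (bmem c (wN Wp : BSet B) ⇨ bLeCard (str B) c (wN Wω))) =
        ⨅ c : Wp, bLeCard (str B) (vN c) (wN Wω) :=
      iInf_fam (fun b : Wp => (vN b : BSet B)) (ext_leCard _)
    rw [h1]
    exact le_iInf fun c => (leCard_vN_top c).ge

/-- The name of the relation with the values `fv`. -/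
noncomputable def fName (fv : Wp → Wp → B) : BSet B :=
  relName (fun x : Wp => vN x) (fun y : Wp => vN y) fv

theorem pmem_fName (fv : Wp → Wp → B) (x y : Wp) : pmem (vN x) (vN y) (fName fv) = fv x y :=
  pmem_relName_of_discrete discrete_vN discrete_vN fv x y

theorem ext_isVal (s f a : BSet B) : Ext (fun x => bIsVal (str B) s f x a) := by
  unfold bIsVal
  simp only [str_mem, str_bRel, bihimp]
  refine Ext.iInf fun y => Ext.inf ?_ ?_
  · exact ((ext_const _).inf (ext_pmem₁ y f)).himp (ext_const _)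
  · exact (ext_const _).himp ((ext_const _).inf (ext_pmem₁ y f))

theorem isVal_mem {Γ : B} {s f x a y : BSet B} (h : Γ ≤ bIsVal (str B) s f x a)
    (hy : Γ ≤ bmem y a) : Γ ≤ bmem y s ⊓ pmem x y f := by
  unfold bIsVal at h
  simp only [str_mem, str_bRel, bihimp] at h
  exact bv_mp (bv_right (bv_all h y)) hy

/-- `f(x) ⊆ x`, and `|x| ≤ |w|` for `x ∈ s` -/
theorem setMap_fName (fv : Wp → Wp → B) (h : ∀ x y, fv x y ≠ ⊥ → y < x) :
    bSetMap (str B) (wN Wω) (wN Wp) (fName fv) = ⊤ := by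
  unfold bSetMap
  simp only [str_mem, str_bRel]
  have hE : Ext (fun x : BSet B => (pmem x x (fName fv))ᶜ ⊓
      ⨅ a, (bIsVal (str B) (wN Wp) (fName fv) x a ⇨ bLeCard (str B) a (wN Wω))) := by
    refine Ext.inf (Ext.compl ?_) (Ext.iInf fun a => (ext_isVal _ _ a).himp (ext_const _))
    intro x y
    have h1 : beq x y ⊓ pmem x x (fName fv) ≤ pmem y x (fName fv) :=
      (ext_pmem₁ x (fName fv)).le inf_le_left inf_le_right
    exact (ext_pmem₂ y (fName fv)).le inf_le_left h1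
  have h1 : (⨅ x, (bmem x (wN Wp : BSet B) ⇨ ((pmem x x (fName fv))ᶜ ⊓
      ⨅ a, (bIsVal (str B) (wN Wp) (fName fv) x a ⇨ bLeCard (str B) a (wN Wω))))) =
      ⨅ x : Wp, ((pmem (vN x) (vN x) (fName fv))ᶜ ⊓
      ⨅ a, (bIsVal (str B) (wN Wp) (fName fv) (vN x) a ⇨ bLeCard (str B) a (wN Wω))) :=
    iInf_fam (fun b : Wp => (vN b : BSet B)) hE
  rw [h1, eq_top_iff]
  refine le_iInf fun x => le_inf ?_ (le_iInf fun a => bv_imp fun Γ _ ha => ?_)
  · have h2 : fv x x = ⊥ := by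
      by_contra hne
      exact lt_irrefl x (h x x hne)
    rw [pmem_fName, h2, compl_bot]
  · refine (le_inf ?_ (le_top.trans (leCard_vN_top x).ge)).trans (leCard_mono_left a (vN x) (wN Wω))
    rw [str_bSubset']
    refine le_iInf fun z => bv_imp fun Δ hΔ hz => ?_
    have h3 := isVal_mem (hΔ.trans ha) hz
    have h4 := bv_left h3
    rw [bmem_wN] at h4
    refine bv_exists h4 fun y E hE hy => ?_
    have h5 : E ≤ fv x y := by
      rw [← pmem_fName fv x y]
      exact (ext_pmem₂ (vN x) (fName fv)).le hy (hE.trans (bv_right h3))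
    by_cases h6 : fv x y = ⊥
    · rw [h6] at h5
      exact h5.trans bot_le
    · exact bmem_congr_left (beq_symm' hy) (le_top.trans (vN_mem_vN (h x y h6)).ge)

/-- a subset of `s` whose elements have values `≠ ⊥` only on the set `C` is a subset of the family of the
`vN x`, `x ∈ C` -/
theorem subset_fam (Γ : B) (F : BSet B) (hF : Γ ≤ (str B).bSubset F (wN Wp)) (C : Set Wp)
    (hC : ∀ x, Γ ⊓ bmem (vN x) F ≠ ⊥ → x ∈ C) :
    Γ ≤ (str B).bSubset F (fam fun x : C => vN x.1) := by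
  rw [str_bSubset']
  refine le_iInf fun z => bv_imp fun Δ hΔ hz => ?_
  have h1 := subset_mem (hΔ.trans hF) hz
  rw [bmem_wN] at h1
  refine bv_exists h1 fun x E hE hx => ?_
  by_cases h2 : Γ ⊓ bmem (vN x) F = ⊥
  · have h3 : E ≤ Γ ⊓ bmem (vN x) F := le_inf (hE.trans hΔ) (bmem_congr_left hx (hE.trans hz))
    rw [h2] at h3
    exact h3.trans bot_le
  · exact bmem_congr_left (beq_symm' hx)
      (le_top.trans (mem_fam (fun x : C => (vN x.1 : BSet B)) ⟨x, hC x h2⟩).ge)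

/-- a subset of `s` whose elements have values `≠ ⊥` only on a countable set is countable: it is a subset of `fam` over that set -/
theorem countable_top (Γ : B) (F : BSet B) (hF : Γ ≤ (str B).bSubset F (wN Wp))
    (hc : {x : Wp | Γ ⊓ bmem (vN x) F ≠ ⊥}.Countable) : Γ ≤ bLeCard (str B) F omega := by
  have h1 := subset_fam Γ F hF {x : Wp | Γ ⊓ bmem (vN x) F ≠ ⊥} (fun x hx => hx)
  refine (le_inf h1 ?_).trans (leCard_mono_left F _ omega)
  have : Countable {x : Wp | Γ ⊓ bmem (vN x) F ≠ ⊥} := hc.to_subtype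
  obtain ⟨e, he⟩ := this.exists_injective_nat
  have h2 : (omega : BSet B) = fam (fun n : ULift.{0} ℕ => ofNat n.down) := rfl
  rw [h2]
  refine le_top.trans (leCard_fam_top _ ?_ ⟨fun x => ⟨e x⟩, ?_⟩).ge
  · intro i j hij
    exact ofNat_discrete (fun h => hij (ULift.ext _ _ h))
  · intro x y hxy
    exact he (congrArg ULift.down hxy)

/-- `leCard_fam_bot` -/
theorem big_bot (hB : BCCC B) (Γ : B) (X : BSet B) (hX : Γ ≤ (str B).bSubset X (wN Wp))
    (h : Γ ≤ bLeCard (str B) (wN Wω) X) (hc : {x : Wp | Γ ⊓ bmem (vN x) X ≠ ⊥}.Countable) :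
    Γ = ⊥ := by
  have h1 := subset_fam Γ X hX {x : Wp | Γ ⊓ bmem (vN x) X ≠ ⊥} (fun x hx => hx)
  have h2 := (le_inf h1 h).trans (leCard_mono_right (wN Wω) X _)
  have h3 : bLeCard (str B) (wN Wω : BSet B)
      (fam fun x : {x : Wp | Γ ⊓ bmem (vN x) X ≠ ⊥} => vN x.1) = ⊥ := by
    rw [wN_eq_fam]
    refine leCard_fam_bot hB discrete_vN _ ?_
    rw [mk_Wω, max_eq_right hc.le_aleph0, ← Cardinal.aleph_zero, Cardinal.aleph_lt_aleph]
    exact Ordinal.omega0_pos
  rw [h3] at h2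
  exact le_bot_iff.1 h2

theorem isInter_mem {Γ : B} {s f X a y : BSet B} (h : Γ ≤ bInter (str B) s f X a)
    (hy : Γ ≤ bmem y a) : Γ ≤ bmem y s ⊓ ⨅ x, (bmem x X ⇨ pmem x y f) := by
  unfold bInter at h
  simp only [str_mem, str_bRel, bihimp] at h
  exact bv_mp (bv_right (bv_all h y)) hy

theorem small_fName (hB : BCCC B) (fv : Wp → Wp → B)
    (h : ∀ (b : B) (X A : Wp → B), (∀ x y, b ⊓ X x ⊓ A y ≤ fv x y) →
      (∀ c ≤ b, c ≠ ⊥ → ¬ {x | c ⊓ X x ≠ ⊥}.Countable) → {y | b ⊓ A y ≠ ⊥}.Countable) :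
    bSmall (str B) (wN Wω) (wN Wp) (fName fv) = ⊤ := by
  unfold bSmall
  simp only [str_mem]
  rw [eq_top_iff]
  refine le_iInf fun X => bv_imp fun Γ _ hΓ => le_iInf fun a => bv_imp fun Δ hΔ ha => ?_
  have hX : Δ ≤ (str B).bSubset X (wN Wp) := hΔ.trans (bv_left (bv_left hΓ))
  have hw : Δ ≤ bLeCard (str B) (wN Wω) X := hΔ.trans (bv_right hΓ)
  have hcount : {y : Wp | Δ ⊓ bmem (vN y) a ≠ ⊥}.Countable := by
    refine h Δ (fun x => bmem (vN x) X) (fun y => bmem (vN y) a) ?_ ?_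
    · intro x y
      have h1 := isInter_mem (Γ := Δ ⊓ bmem (vN x) X ⊓ bmem (vN y) a)
        ((inf_le_left.trans inf_le_left).trans ha) inf_le_right
      rw [← pmem_fName fv x y]
      exact bv_mp (bv_all (bv_right h1) (vN x)) (inf_le_left.trans inf_le_right)
    · intro c hc hne hcc
      exact hne (big_bot hB c X (hc.trans hX) (hc.trans hw) hcc)
  have ha' : Δ ≤ (str B).bSubset a (wN Wp) := by
    rw [str_bSubset']
    exact le_iInf fun z => bv_imp fun E hE hz => bv_left (isInter_mem (hE.trans ha) hz)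
  have h2 := countable_top Δ a ha' hcount
  obtain ⟨o, ⟨e⟩⟩ := wom_omega
  have ho : beq (vN o : BSet B) omega = ⊤ := beq_vN_omega o e
  refine bv_intro (f := fun c => bmem c (wN Wω) ⊓ bLeCard (str B) a c) (vN o)
    (le_inf (le_top.trans (vN_mem_wN o).ge) ?_)
  exact (ext_leCard' a).le (beq_symm' (le_top.trans ho.ge)) h2

theorem uncFree_fName (fv : Wp → Wp → B)
    (h : ∀ (b : B) (F : Wp → B), (∀ x y, b ⊓ F x ⊓ F y ⊓ fv x y = ⊥) →
      {x | b ⊓ F x ≠ ⊥}.Countable) (F : BSet B) :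
    bUncFree (str B) (wN Wp) (fName fv) F = ⊥ := by
  rw [← le_bot_iff]
  unfold bUncFree
  simp only [str_mem, str_bRel, str_bOmega]
  obtain ⟨Γ, hΓ⟩ : ∃ Γ : B, Γ = (str B).bSubset F (wN Wp) ⊓
      (⨅ x, ⨅ y, (bmem x F ⊓ bmem y F ⇨ (pmem x y (fName fv))ᶜ)) ⊓
      ⨅ o, (beq o omega ⇨ (bLeCard (str B) F o)ᶜ) := ⟨_, rfl⟩
  rw [← hΓ]
  have h1 : {x : Wp | Γ ⊓ bmem (vN x) F ≠ ⊥}.Countable := by
    refine h Γ (fun x => bmem (vN x) F) fun x y => ?_
    rw [← le_bot_iff, ← pmem_fName fv x y]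
    have h0 : Γ ≤ (bmem (vN x) F ⊓ bmem (vN y) F ⇨ (pmem (vN x) (vN y) (fName fv))ᶜ) :=
      bv_all (bv_all (bv_right (bv_left hΓ.le)) (vN x)) (vN y)
    have h2 : Γ ⊓ bmem (vN x) F ⊓ bmem (vN y) F ⊓ pmem (vN x) (vN y) (fName fv) ≤
        (pmem (vN x) (vN y) (fName fv))ᶜ := by
      refine bv_mp (((inf_le_left.trans inf_le_left).trans inf_le_left).trans h0) ?_
      exact le_inf ((inf_le_left.trans inf_le_left).trans inf_le_right)
          (inf_le_left.trans inf_le_right)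
    exact bv_absurd inf_le_right h2
  have h2 := countable_top Γ F (bv_left (bv_left hΓ.le)) h1
  have h3 : Γ ≤ (bLeCard (str B) F omega)ᶜ :=
    bv_mp (bv_all (bv_right hΓ.le) omega) (by simp)
  exact bv_absurd h2 h3

/-- The combinatorial core. -/
def FCore (B : Type) [CompleteBooleanAlgebra B] : Prop :=
  ∃ fv : Wp → Wp → B, (∀ x y, fv x y ≠ ⊥ → y < x) ∧
    (∀ (b : B) (F : Wp → B), (∀ x y, b ⊓ F x ⊓ F y ⊓ fv x y = ⊥) → {x | b ⊓ F x ≠ ⊥}.Countable) ∧
    (∀ (b : B) (X A : Wp → B), (∀ x y, b ⊓ X x ⊓ A y ≤ fv x y) →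
      (∀ c ≤ b, c ≠ ⊥ → ¬ {x | c ⊓ X x ≠ ⊥}.Countable) → {y | b ⊓ A y ≠ ⊥}.Countable)

theorem bFree_bot (hB : BCCC B) (h : FCore B) : bFree (str B) = ⊥ := by
  obtain ⟨fv, h1, h2, h3⟩ := h
  rw [eq_bot_iff]
  unfold bFree
  refine (iInf_le _ (wN Wω)).trans ?_
  rw [isOm_wN hB, top_himp]
  refine (iInf_le _ (wN Wp)).trans ?_
  rw [hart_wN hB, top_himp]
  refine (iInf_le _ (fName fv)).trans ?_
  rw [setMap_fName fv h1, small_fName hB fv h3, inf_top_eq, top_himp]
  exact iSup_le fun F => (uncFree_fName fv h2 F).le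

end Pool.Agent.H.MP_5fddfa_lc.CR
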