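import Pool.Agent.H.MP_5fddfa_lc.CR.Forc
import Pool.Agent.H.MP_5fddfa_lc.CR.V

/-!
# The Cohen algebra on the pairs of `ω_{ω+1}` has the combinatorial core
-/

set_option autoImplicit false

namespace Pool.Agent.H.MP_5fddfa_lc.CR

open _root_.M3 H98m

/-- The algebra of `ℵ_{ω+1}` Cohen reals, indexed by the pairs of elements of `ω_{ω+1}`. -/
abbrev BFree : Type := RO (Cond (Wp × Wp))

instance : Nonempty (Cond (Wp × Wp)) := ⟨⟨∅, fun _ => 0⟩⟩

theorem bccc_BFree : BCCC BFree := RO.bccc (cond_ccc _)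

theorem fcore : FCore BFree :=
  ⟨fv, fun _ _ h => fv_ne_bot h, free_countable, inter_countable⟩

end Pool.Agent.H.MP_5fddfa_lc.CR
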