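import Pool.Agent.H.MP_5fddfa_lc.CR.Rel

/-!
# The relation for smaller free sets
-/

set_option autoImplicit false

open Cardinal

universe u

namespace Pool.Agent.H.MP_5fddfa_lc.CR

/-- A free set of size `ι` contains a free set of every smaller size. -/
theorem freeRel_mono {κ η θ ι ι' : Cardinal.{u}} (h : ι' ≤ ι) (hR : FreeRel κ η θ ι) :
    FreeRel κ η θ ι' := by
  intro S f hS h1 h2 h3
  obtain ⟨F, hF, hF'⟩ := hR S f hS h1 h2 h3
  obtain ⟨F', hF1, hF2⟩ := le_mk_iff_exists_subset.1 (h.trans hF.ge)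
  exact ⟨F', hF2, fun x hx y hy => hF' x (hF1 hx) y (hF1 hy)⟩

end Pool.Agent.H.MP_5fddfa_lc.CR
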