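import Pool.Agent.H.MP_5fddfa_lc.CR.TA2
import Pool.Agent.H.MP_5fddfa_lc.CR.Mono
import Pool.Agent.H.MP_5fddfa_lc.CR.V
import Pool.Agent.H.MP_8ff4bd_gt.M3.PropZF
import Pool.Agent.H.MP_8ff4bd_gt.M3.S.Indep

/-!
# Assembly
-/

set_option autoImplicit false

namespace Pool.Agent.H.MP_5fddfa_lc.CR

open FirstOrder Pool.Agent.H.MP_8ff4bd_gt.M3 Pool.Agent.H.MP_353193_lc.BV
open _root_.M3 (BCCC)

universe u

/-- The final theorem, from the combinatorial core. -/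
theorem final_of {B : Type} [CompleteBooleanAlgebra B] [Nontrivial B] (hB : BCCC B)
    (hcore : FCore B) :
    ∃ φ : LSet.Sentence,
    (∀ (M : Type u) (E : M → M → Prop), Sat E φ ↔ PlainE.FreeArrow E) ∧
    (Sat (fun x y : ZFSet.{0} => x ∈ y) φ ↔
      FreeRel.{0} (Cardinal.aleph (Ordinal.omega0.{0} + 1)) (Cardinal.aleph Ordinal.omega0.{0})
        (Cardinal.aleph Ordinal.omega0.{0}) (Cardinal.aleph 1)) ∧
    (∀ ι : Cardinal.{0}, Cardinal.aleph 1 ≤ ι →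
      FreeRel.{0} (Cardinal.aleph (Ordinal.omega0.{0} + 1)) (Cardinal.aleph Ordinal.omega0.{0})
        (Cardinal.aleph Ordinal.omega0.{0}) ι → Sat (fun x y : ZFSet.{0} => x ∈ y) φ) ∧
    (∀ (M : Type u) (E : M → M → Prop),
      @FirstOrder.Language.Theory.Model LSet M (epsStr E) ZFC ↔ ZFCModel E) ∧
    ZFCModel (fun x y : ZFSet.{0} => x ∈ y) ∧
    ¬ (ZFC ⊨ᵇ φ) := by
  refine ⟨freeSentence, fun M E => sat_freeSentence_iff E, sat_ZFSet_freeSentence,
    fun ι hι h => sat_ZFSet_freeSentence.2 (freeRel_mono hι h),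
    fun M E => model_ZFC_iff, _root_.M3.BSet.zfcModel_ZFSet, ?_⟩
  refine (_root_.M3.BSet.bzfc (B := B)).not_models _ ?_
  rw [bval_freeSentence, bFree_bot hB hcore]
  exact bot_ne_top

end Pool.Agent.H.MP_5fddfa_lc.CR
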