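import Pool.Agent.H.MP_8ff4bd_gt.M3.NO

/-!
# The combinatorial core: a generic function on the pairs of a linear order

`B = RO (Cond (W × W))`; the value of `y ∈ f(x)` is `e(x, y) = 0` for the generic function `e` if `y < x`, and `⊥` otherwise.
-/

set_option autoImplicit false

namespace Pool.Agent.H.MP_5fddfa_lc.CR

open Classical _root_.M3 H98m

/-- In an uncountable set there are two elements `a ≠ b` with `b ∉ r a` and `a ∉ s b`, for `r`, `s` with finite values. -/
theorem pick {A : Type} {T : Set A} (hT : ¬ T.Countable) (r s : A → Set A)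
    (hr : ∀ a ∈ T, (r a).Finite) (hs : ∀ a ∈ T, (s a).Finite) :
    ∃ a ∈ T, ∃ b ∈ T, a ≠ b ∧ b ∉ r a ∧ a ∉ s b := by
  have hTi : T.Infinite := fun h => hT h.countable
  obtain ⟨e⟩ : Nonempty (ℕ ↪ T) := ⟨hTi.natEmbedding T⟩
  set T0 : Set A := Set.range (fun n => (e n : A)) with hT0
  have hT0T : T0 ⊆ T := by
    rintro _ ⟨n, rfl⟩
    exact (e n).2
  have hT0c : T0.Countable := Set.countable_range _
  have hT0i : T0.Infinite :=
    Set.infinite_range_of_injective (fun m n h => e.injective (Subtype.ext h))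
  have hU : (T0 ∪ ⋃ a ∈ T0, r a).Countable :=
    hT0c.union (hT0c.biUnion fun a ha => (hr a (hT0T ha)).countable)
  obtain ⟨b, hbT, hbU⟩ : ∃ b ∈ T, b ∉ T0 ∪ ⋃ a ∈ T0, r a := by
    by_contra h
    push Not at h
    exact hT (hU.mono h)
  obtain ⟨a, haT0, has⟩ := hT0i.exists_notMem_finite (hs b hbT)
  refine ⟨a, hT0T haT0, b, hbT, ?_, ?_, has⟩
  · rintro rfl
    exact hbU (Or.inl haT0)
  · intro hba
    exact hbU (Or.inr (Set.mem_biUnion haT0 hba))

/-- Injective choice from uncountably many uncountable sets. -/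
theorem inj_choice {A C : Type} {Y : Set A} (hY : ¬ Y.Countable) (X : A → Set C)
    (hX : ∀ y ∈ Y, ¬ (X y).Countable) :
    ∃ M : Set (A × C), ¬ M.Countable ∧ (∀ a ∈ M, a.1 ∈ Y ∧ a.2 ∈ X a.1) ∧
      Set.InjOn Prod.fst M ∧ Set.InjOn Prod.snd M := by
  obtain ⟨M, hM⟩ := zorn_subset {M : Set (A × C) | (∀ a ∈ M, a.1 ∈ Y ∧ a.2 ∈ X a.1) ∧
      Set.InjOn Prod.fst M ∧ Set.InjOn Prod.snd M} (by
    intro c hc hchain
    refine ⟨⋃₀ c, ⟨?_, ?_, ?_⟩, fun s hs => Set.subset_sUnion_of_mem hs⟩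
    · rintro a ⟨s, hs, ha⟩
      exact (hc hs).1 a ha
    · rintro a ⟨s, hs, ha⟩ b ⟨t, ht, hb⟩ hab
      rcases hchain.total hs ht with h | h
      · exact (hc ht).2.1 (h ha) hb hab
      · exact (hc hs).2.1 ha (h hb) hab
    · rintro a ⟨s, hs, ha⟩ b ⟨t, ht, hb⟩ hab
      rcases hchain.total hs ht with h | h
      · exact (hc ht).2.2 (h ha) hb hab
      · exact (hc hs).2.2 ha (h hb) hab)
  have hp := hM.prop
  refine ⟨M, ?_, hp.1, hp.2.1, hp.2.2⟩
  intro hMc
  obtain ⟨y, hyY, hy⟩ : ∃ y ∈ Y, y ∉ Prod.fst '' M := by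
    by_contra h
    push Not at h
    exact hY ((hMc.image _).mono h)
  obtain ⟨x, hxX, hx⟩ : ∃ x ∈ X y, x ∉ Prod.snd '' M := by
    by_contra h
    push Not at h
    exact hX y hyY ((hMc.image _).mono h)
  have hins : insert (y, x) M ∈ {M : Set (A × C) | (∀ a ∈ M, a.1 ∈ Y ∧ a.2 ∈ X a.1) ∧
      Set.InjOn Prod.fst M ∧ Set.InjOn Prod.snd M} := by
    refine ⟨?_, ?_, ?_⟩
    · rintro a (rfl | ha)
      · exact ⟨hyY, hxX⟩
      · exact hp.1 a ha
    · rintro a (rfl | ha) b (rfl | hb) hab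
      · rfl
      · exact absurd ⟨b, hb, hab.symm⟩ hy
      · exact absurd ⟨a, ha, hab⟩ hy
      · exact hp.2.1 ha hb hab
    · rintro a (rfl | ha) b (rfl | hb) hab
      · rfl
      · exact absurd ⟨b, hb, hab.symm⟩ hx
      · exact absurd ⟨a, ha, hab⟩ hx
      · exact hp.2.2 ha hb hab
  have h1 : (y, x) ∈ M := hM.le_of_ge hins (Set.subset_insert _ _) (Set.mem_insert _ _)
  exact hy ⟨(y, x), h1, rfl⟩

section core

variable {W : Type} [LinearOrder W]

/-- The value of `y ∈ f(x)`. -/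
noncomputable def fv (x y : W) : RO (Cond (W × W)) :=
  if y < x then RO.ι (single (x, y) 0) else ⊥

theorem fv_ne_bot {x y : W} (h : fv x y ≠ ⊥) : y < x := by
  by_contra hn
  exact h (if_neg hn)

theorem compat_single {K : Type} {q : Cond K} {k : K} {n : ℕ} (hk : k ∉ q.dom) :
    H98m.Compat q (single k n) := by
  intro j hj hj'
  have : j = k := by simpa [single] using hj'
  exact absurd (this ▸ hj) hk

theorem val_of_le_single {K : Type} {s : Cond K} {k : K} {n : ℕ} (h : s ≤ single k n) :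
    s.val k = n := h.2 k (by simp [single])

/-- Some condition below `q` does not force `y ∈ f(x)`. -/
theorem not_forces_fv {q : Cond (W × W)} {x y : W} (hk : (x, y) ∉ q.dom) :
    ¬ RO.Forces q (fv x y) := by
  intro h
  have hq' : un q (single (x, y) 1) ≤ q := ext_un_left _ _
  have hq1 : un q (single (x, y) 1) ≤ single (x, y) 1 := ext_un_right (compat_single hk)
  have h1 := h.mono hq'
  unfold fv at h1
  split_ifs at h1 with hlt
  · obtain ⟨s, hs, hs0⟩ := RO.forces_ι.1 h1 _ le_rfl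
    have e0 := val_of_le_single hs0
    have e1 := val_of_le_single (hs.trans hq1)
    rw [e0] at e1
    exact absurd e1 (by norm_num)
  · exact RO.not_forces_bot _ h1

/-- A countable set of candidates for the elements of a free set. -/
theorem free_countable (b : RO (Cond (W × W))) (F : W → RO (Cond (W × W)))
    (h : ∀ x y, b ⊓ F x ⊓ F y ⊓ fv x y = ⊥) : {x | b ⊓ F x ≠ ⊥}.Countable := by
  by_contra hS
  have hch : ∀ x, ∃ p, x ∈ {x | b ⊓ F x ≠ ⊥} → RO.Forces p (b ⊓ F x) := by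
    intro x
    by_cases hx : x ∈ {x | b ⊓ F x ≠ ⊥}
    · obtain ⟨p, hp⟩ := RO.exists_forces_of_ne_bot hx
      exact ⟨p, fun _ => hp⟩
    · exact ⟨⟨∅, fun _ => 0⟩, fun h => absurd h hx⟩
  choose f hf using hch
  obtain ⟨T, hTS, hT, R, c, -, -, hR⟩ := thin {x | b ⊓ F x ≠ ⊥} hS f (fun _ => ())
  set r : W → Set W := fun a => {b | (a, b) ∈ (f a).dom} ∪ {b | (b, a) ∈ (f a).dom} with hr
  have hrf : ∀ a ∈ T, (r a).Finite := by
    intro a _
    refine Set.Finite.union ?_ ?_
    · exact ((f a).dom.finite_toSet).preimage (f := fun b => (a, b))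
        (fun x _ y _ hxy => congrArg Prod.snd hxy)
    · exact ((f a).dom.finite_toSet).preimage (f := fun b => (b, a))
        (fun x _ y _ hxy => congrArg Prod.fst hxy)
  obtain ⟨x, hx, y, hy, hxy, hyx, hxy'⟩ := pick hT r r hrf hrf
  simp only [hr, Set.mem_union, Set.mem_ofPred_eq, not_or] at hyx hxy'
  have main : ∀ x y, x ∈ T → y ∈ T → x ≠ y → (x, y) ∉ (f x).dom → (x, y) ∉ (f y).dom →
      y < x → False := by
    intro x y hx hy hxy h1 h2 hlt
    have hc := (hR x hx y hy hxy).2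
    have hk : (x, y) ∉ (un (f x) (f y)).dom := by
      rw [mem_un]
      tauto
    have hq' : un (un (f x) (f y)) (single (x, y) 0) ≤ un (f x) (f y) := ext_un_left _ _
    have hq0 : un (un (f x) (f y)) (single (x, y) 0) ≤ single (x, y) 0 :=
      ext_un_right (compat_single hk)
    have hqx : un (f x) (f y) ≤ f x := ext_un_left _ _
    have hqy : un (f x) (f y) ≤ f y := ext_un_right hc
    have g1 := (hf x (hTS hx)).mono (hq'.trans hqx)
    have g2 := (hf y (hTS hy)).mono (hq'.trans hqy)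
    rw [RO.forces_inf] at g1 g2
    have g3 : RO.Forces (un (un (f x) (f y)) (single (x, y) 0)) (fv x y) := by
      unfold fv
      rw [if_pos hlt]
      exact (RO.forces_ι_self _).mono hq0
    have g4 : RO.Forces (un (un (f x) (f y)) (single (x, y) 0)) (b ⊓ F x ⊓ F y ⊓ fv x y) := by
      simp only [RO.forces_inf]
      exact ⟨⟨g1, g2.2⟩, g3⟩
    rw [h x y] at g4
    exact RO.not_forces_bot _ g4
  rcases lt_trichotomy x y with hlt | heq | hgt
  · exact main y x hy hx hxy.symm (by tauto) (by tauto) hlt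
  · exact hxy heq
  · exact main x y hx hy hxy (by tauto) (by tauto) hgt

/-- The intersection of the `f(x)`, `x ∈ X`, has a countable set of candidates for its elements, if `X` is uncountable (in the
sense that no nonzero part of `X` has a countable set of candidates). -/
theorem inter_countable (b : RO (Cond (W × W))) (X A : W → RO (Cond (W × W)))
    (h : ∀ x y, b ⊓ X x ⊓ A y ≤ fv x y)
    (hX : ∀ c ≤ b, c ≠ ⊥ → ¬ {x | c ⊓ X x ≠ ⊥}.Countable) : {y | b ⊓ A y ≠ ⊥}.Countable := by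
  by_contra hY
  obtain ⟨M, hM, hMm, hM1, hM2⟩ := inj_choice hY (fun y => {x | b ⊓ A y ⊓ X x ≠ ⊥})
    (fun y hy => hX (b ⊓ A y) inf_le_left hy)
  have hch : ∀ a : W × W, ∃ p, a ∈ M → RO.Forces p (b ⊓ A a.1 ⊓ X a.2) := by
    intro a
    by_cases ha : a ∈ M
    · obtain ⟨p, hp⟩ := RO.exists_forces_of_ne_bot (hMm a ha).2
      exact ⟨p, fun _ => hp⟩
    · exact ⟨⟨∅, fun _ => 0⟩, fun h => absurd h ha⟩
  choose f hf using hch
  obtain ⟨T, hTM, hT, R, c, -, -, hR⟩ := thin M hM f (fun _ => ())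
  obtain ⟨x, hx, y, hy, hxy, h1, h2⟩ := pick hT
    (fun a => {b | b ∈ M ∧ (a.2, b.1) ∈ (f a).dom}) (fun b => {a | a ∈ M ∧ (a.2, b.1) ∈ (f b).dom})
    (by
      intro a _
      have h3 : {b : W × W | b ∈ M ∧ (a.2, b.1) ∈ (f a).dom} =
          M ∩ (fun b : W × W => (a.2, b.1)) ⁻¹' (f a).dom := rfl
      rw [h3]
      refine Set.Finite.of_finite_image (f := fun b : W × W => (a.2, b.1))
        (((f a).dom.finite_toSet).subset ?_) ?_
      · rintro _ ⟨b, hb, rfl⟩
        exact hb.2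
      · intro u hu v hv huv
        exact hM1 hu.1 hv.1 (congrArg Prod.snd huv))
    (by
      intro b _
      have h3 : {a : W × W | a ∈ M ∧ (a.2, b.1) ∈ (f b).dom} =
          M ∩ (fun a : W × W => (a.2, b.1)) ⁻¹' (f b).dom := rfl
      rw [h3]
      refine Set.Finite.of_finite_image (f := fun a : W × W => (a.2, b.1))
        (((f b).dom.finite_toSet).subset ?_) ?_
      · rintro _ ⟨a, ha, rfl⟩
        exact ha.2
      · intro u hu v hv huv
        exact hM2 hu.1 hv.1 (congrArg Prod.fst huv))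
  have hxM := hTM hx
  have hyM := hTM hy
  have hk : (x.2, y.1) ∉ (un (f x) (f y)).dom := by
    rw [mem_un]
    rintro (h3 | h3)
    · exact h1 ⟨hyM, h3⟩
    · exact h2 ⟨hxM, h3⟩
  refine not_forces_fv hk ?_
  have hc := (hR x hx y hy hxy).2
  have hqx : un (f x) (f y) ≤ f x := ext_un_left _ _
  have hqy : un (f x) (f y) ≤ f y := ext_un_right hc
  have g1 := (hf x hxM).mono hqx
  have g2 := (hf y hyM).mono hqy
  simp only [RO.forces_inf] at g1 g2
  refine RO.le_iff.1 (h x.2 y.1) _ ?_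
  simp only [RO.forces_inf]
  exact ⟨⟨g1.1.1, g1.2⟩, g2.1.2⟩

end core

end Pool.Agent.H.MP_5fddfa_lc.CR
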