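import Pool.Agent.H.MP_5fddfa_lc.CR.Mono

/-!
# Countable free sets, without hypotheses on cardinal arithmetic
-/

set_option autoImplicit false

open Cardinal Order

universe u

namespace Pool.Agent.H.MP_5fddfa_lc.CR

/-- `(κ⁺, κ, κ) → ℵ₀` for every infinite `κ`. -/
theorem freeRel_aleph0 (κ : Cardinal.{u}) (hκ : ℵ₀ ≤ κ) : FreeRel (succ κ) κ κ ℵ₀ := by
  classical
  intro S f hS hself hf hX
  set N : S → Set S := fun x => {y | y ≠ x ∧ y ∉ f x ∧ x ∉ f y} with hN
  by_cases h : ∀ A : Set S, #A = succ κ → ∃ x ∈ A, #(A ∩ N x : Set S) = succ κ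
  · have h' : ∀ A : {A : Set S // #A = succ κ}, ∃ x ∈ A.1, #(A.1 ∩ N x : Set S) = succ κ :=
      fun A => h A.1 A.2
    choose g hg1 hg2 using h'
    let A : ℕ → {A : Set S // #A = succ κ} := fun n =>
      Nat.rec ⟨Set.univ, by rw [mk_univ, hS]⟩ (fun _ A => ⟨A.1 ∩ N (g A), hg2 A⟩) n
    have hA : ∀ n, (A (n + 1)).1 = (A n).1 ∩ N (g (A n)) := fun n => rfl
    have hanti : ∀ m n, m ≤ n → (A n).1 ⊆ (A m).1 := by
      intro m n hmn
      induction n, hmn using Nat.le_induction with
      | base => exact subset_rfl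
      | succ n _ ih => exact (hA n ▸ Set.inter_subset_left).trans ih
    set x : ℕ → S := fun n => g (A n) with hx
    have hlt : ∀ m n, m < n → x n ∈ N (x m) := by
      intro m n hmn
      have h1 := hanti (m + 1) n hmn (hg1 (A n))
      rw [hA] at h1
      exact h1.2
    have hinj : Function.Injective x := by
      intro m n hmn
      rcases lt_trichotomy m n with h1 | h1 | h1
      · exact absurd hmn.symm (hlt m n h1).1
      · exact h1
      · exact absurd hmn (hlt n m h1).1
    refine ⟨Set.range x, ?_, ?_⟩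
    · have h2 := mk_range_eq_of_injective hinj
      rw [mk_nat, lift_aleph0, lift_uzero] at h2
      exact h2
    · rintro _ ⟨m, rfl⟩ _ ⟨n, rfl⟩
      rcases lt_trichotomy m n with h1 | h1 | h1
      · exact (hlt m n h1).2.2
      · rw [h1]
        exact hself _
      · exact (hlt n m h1).2.1
  · push Not at h
    obtain ⟨A, hA, hsmall⟩ := h
    exfalso
    have hsm : ∀ x ∈ A, #(A ∩ N x : Set S) ≤ κ := by
      intro x hx
      rw [← lt_succ_iff]
      exact lt_of_le_of_ne ((mk_le_mk_of_subset Set.inter_subset_left).trans hA.le)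
        (hsmall x hx)
    obtain ⟨B, hBA, hB⟩ := le_mk_iff_exists_subset.1 ((le_succ κ).trans hA.ge)
    set bad : Set S := ⋃ x ∈ B, ((A ∩ N x) ∪ f x ∪ {x}) with hbad
    have hbadc : #(bad : Set S) ≤ κ := by
      refine (mk_biUnion_le _ _).trans ?_
      rw [hB]
      refine mul_le_of_le hκ le_rfl (ciSup_le' fun x => ?_)
      refine (mk_union_le _ _).trans (add_le_of_le hκ ((mk_union_le _ _).trans
        (add_le_of_le hκ (hsm x.1 (hBA x.2)) (lt_succ_iff.1 (hf x.1)))) ?_)
      rw [mk_singleton]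
      exact one_le_aleph0.trans hκ
    have hgood : κ ≤ #(A \ bad : Set S) := by
      by_contra hlt
      push Not at hlt
      have h1 : #A ≤ #(A \ bad : Set S) + #(bad : Set S) := by
        refine le_trans (mk_le_mk_of_subset ?_) (mk_union_le _ _)
        intro y hy
        by_cases hyb : y ∈ bad
        · exact Or.inr hyb
        · exact Or.inl ⟨hy, hyb⟩
      rw [hA] at h1
      exact absurd (h1.trans (add_le_of_le hκ hlt.le hbadc)) (not_le.2 (lt_succ κ))
    obtain ⟨X, hXs, hXc⟩ := le_mk_iff_exists_subset.1 hgood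
    have hlt := hX X hXc
    refine absurd hlt (not_lt.2 ?_)
    refine hB.ge.trans (mk_le_mk_of_subset fun x hxB => ?_)
    simp only [Set.mem_iInter]
    intro y hyX
    obtain ⟨hyA, hyb⟩ := hXs hyX
    by_contra hxy
    apply hyb
    refine Set.mem_biUnion hxB ?_
    by_cases h1 : y = x
    · exact Or.inr h1
    · by_cases h2 : y ∈ f x
      · exact Or.inl (Or.inr h2)
      · exact Or.inl (Or.inl ⟨hyA, h1, h2, hxy⟩)

/-- `(ℵ_{ω+1}, ℵ_ω, ℵ_ω) → ι` for every `ι ≤ ℵ₀`. -/
theorem freeRel_countable (ι : Cardinal.{u}) (hι : ι ≤ ℵ₀) :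
    FreeRel (ℵ_ (Ordinal.omega0.{u} + 1)) (ℵ_ Ordinal.omega0.{u}) (ℵ_ Ordinal.omega0.{u}) ι := by
  have h := freeRel_mono hι (freeRel_aleph0 (ℵ_ Ordinal.omega0.{u}) (aleph0_le_aleph _))
  rwa [succ_aleph] at h

end Pool.Agent.H.MP_5fddfa_lc.CR
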