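import Pool.Agent.H.MP_353193_lc.BV.PlainE

/-!
# The free set relation inside an arbitrary epsilon-structure

`(M, E)` is an arbitrary structure, `E x y` means that `x` is an element of `y`.
-/

set_option autoImplicit false

namespace Pool.Agent.H.MP_5fddfa_lc.CR.PlainE

open Pool.Agent.H.MP_8ff4bd_gt.M3.Plain Pool.Agent.H.MP_353193_lc.BV.PlainE

universe u

variable {M : Type u} (E : M → M → Prop)

/-- `s` is the least ordinal which does not inject into `w` -/
def IsHart (w s : M) : Prop := IsOrd E s ∧ ¬ LeCard E s w ∧ ∀ c, E c s → LeCard E c w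

/-- `a = f(x) = {y ∈ s : (x, y) ∈ f}` -/
def IsVal (s f x a : M) : Prop := ∀ y, E y a ↔ (E y s ∧ InRel E f x y)

/-- `f` is a set mapping on `s` with `|f(x)| ≤ |w|` for all `x` -/
def SetMapping (w s f : M) : Prop :=
  ∀ x, E x s → ¬ InRel E f x x ∧ ∀ a, IsVal E s f x a → LeCard E a w

/-- `a = ⋂_{x ∈ X} f(x)` -/
def IsInter (s f X a : M) : Prop := ∀ y, E y a ↔ (E y s ∧ ∀ x, E x X → InRel E f x y)

/-- `|⋂_{x ∈ X} f(x)| < w` for all `X ⊆ s` with `|X| = |w|` -/
def SmallInter (w s f : M) : Prop :=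
  ∀ X, IsSub E X s → LeCard E X w → LeCard E w X →
    ∀ a, IsInter E s f X a → ∃ c, E c w ∧ LeCard E a c

/-- `F` is an uncountable subset of `s` which is free for `f` -/
def UncFree (s f F : M) : Prop :=
  IsSub E F s ∧ (∀ x y, E x F → E y F → ¬ InRel E f x y) ∧ ∀ o, IsOmega E o → ¬ LeCard E F o

/-- The relation `(ℵ_{ω+1}, ℵ_ω, ℵ_ω) → ℵ₁` in `(M, E)` -/
def FreeArrow : Prop :=
  ∀ w, IsOmegaOmega E w → ∀ s, IsHart E w s → ∀ f, SetMapping E w s f → SmallInter E w s f →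
    ∃ F, UncFree E s f F

end Pool.Agent.H.MP_5fddfa_lc.CR.PlainE
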