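import Pool.Agent.H.MP_5fddfa_lc.CR.TN
import Pool.Agent.H.MP_353193_lc.BV.T2

/-!
# The first-order sentence of the free set relation and its value
-/

set_option autoImplicit false

namespace Pool.Agent.H.MP_5fddfa_lc.CR

open FirstOrder Pool.Agent.H.MP_8ff4bd_gt.M3 Pool.Agent.H.MP_353193_lc.BV
open scoped symmDiff

universe u v

section formulas

variable {n : ℕ}

/-- `s` is the least ordinal which does not inject into `w` -/
def fHart (w s : Fin n) : Fm n :=
  fOrd s ⊓ (fLeCard s w).not ⊓ fAll fun c => (fMem c (u1 s)).imp (fLeCard c (u1 w))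

/-- `a = {y ∈ s : (x, y) ∈ f}` -/
def fIsVal (s f x a : Fin n) : Fm n :=
  fAll fun y => (fMem y (u1 a)).iff (fMem y (u1 s) ⊓ fRel (u1 f) (u1 x) y)

/-- `f` is a set mapping on `s` with `|f(x)| ≤ |w|` -/
def fSetMap (w s f : Fin n) : Fm n :=
  fAll fun x => (fMem x (u1 s)).imp ((fRel (u1 f) x x).not ⊓
    fAll fun a => (fIsVal (u2 s) (u2 f) (u1 x) a).imp (fLeCard a (u2 w)))

/-- `a = {y ∈ s : (x, y) ∈ f for all x ∈ X}` -/
def fInter (s f X a : Fin n) : Fm n :=
  fAll fun y => (fMem y (u1 a)).iff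
    (fMem y (u1 s) ⊓ fAll fun x => (fMem x (u2 X)).imp (fRel (u2 f) x (u1 y)))

/-- `|⋂_{x ∈ X} f(x)| < w` for all `X ⊆ s` with `|X| = |w|` -/
def fSmall (w s f : Fin n) : Fm n :=
  fAll fun X => (fSubset X (u1 s) ⊓ fLeCard X (u1 w) ⊓ fLeCard (u1 w) X).imp
    (fAll fun a => (fInter (u2 s) (u2 f) (u1 X) a).imp
      (fEx fun c => fMem c (u3 w) ⊓ fLeCard (u1 a) c))

/-- `F` is an uncountable free subset of `s` -/
def fUncFree (s f F : Fin n) : Fm n :=
  fSubset F s ⊓ (fAll fun x => fAll fun y =>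
      (fMem (u1 x) (u2 F) ⊓ fMem y (u2 F)).imp (fRel (u2 f) (u1 x) y).not) ⊓
    fAll fun o => (fOmega o).imp (fLeCard (u1 F) o).not

end formulas

/-- The sentence of the free set relation. -/
def freeSentence : LSet.Sentence :=
  (fAll fun w => (fIsOm w).imp (fAll fun s => (fHart (u1 w) s).imp (fAll fun f =>
    (fSetMap (u2 w) (u1 s) f ⊓ fSmall (u2 w) (u1 s) f).imp
      (fEx fun F => fUncFree (u2 s) (u1 f) F))) : Fm 0)

section values

variable {B : Type u} [CompleteBooleanAlgebra B] {V : Type v} (S : BStr B V)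
  {n : ℕ} (v : Empty → V) (xs : Fin n → V)

theorem bval_fHart (w s : Fin n) : S.bval (fHart w s) v xs = bHart S (xs w) (xs s) := by
  simp only [fHart, bHart, BStr.bval_inf, BStr.bval_fOrd, BStr.bval_not, BStr.bval_fAll,
    BStr.bval_imp, BStr.bval_fMem, bval_fLeCard, BStr.snoc_u1, BStr.snoc_last]

theorem bval_fIsVal (s f x a : Fin n) :
    S.bval (fIsVal s f x a) v xs = bIsVal S (xs s) (xs f) (xs x) (xs a) := by
  simp only [fIsVal, bIsVal, BStr.bval_inf, BStr.bval_fAll, BStr.bval_iff, BStr.bval_fMem,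
    BStr.bval_fRel, BStr.snoc_u1, BStr.snoc_last]

theorem bval_fInter (s f X a : Fin n) :
    S.bval (fInter s f X a) v xs = bInter S (xs s) (xs f) (xs X) (xs a) := by
  simp only [fInter, bInter, BStr.bval_inf, BStr.bval_fAll, BStr.bval_iff, BStr.bval_imp,
    BStr.bval_fMem, BStr.bval_fRel, BStr.snoc_u1, BStr.snoc_last]

theorem bval_fSetMap (w s f : Fin n) :
    S.bval (fSetMap w s f) v xs = bSetMap S (xs w) (xs s) (xs f) := by
  simp only [fSetMap, bSetMap, BStr.bval_inf, BStr.bval_fAll, BStr.bval_not, BStr.bval_imp,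
    BStr.bval_fMem, BStr.bval_fRel, bval_fLeCard, bval_fIsVal, BStr.snoc_u1, BStr.snoc_last]

theorem bval_fSmall (w s f : Fin n) :
    S.bval (fSmall w s f) v xs = bSmall S (xs w) (xs s) (xs f) := by
  simp only [fSmall, bSmall, BStr.bval_inf, BStr.bval_fAll, BStr.bval_fEx, BStr.bval_imp,
    BStr.bval_fSubset, BStr.bval_fMem, bval_fLeCard, bval_fInter, BStr.snoc_u1, BStr.snoc_last]

theorem bval_fUncFree (s f F : Fin n) :
    S.bval (fUncFree s f F) v xs = bUncFree S (xs s) (xs f) (xs F) := by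
  simp only [fUncFree, bUncFree, BStr.bval_inf, BStr.bval_fAll, BStr.bval_not, BStr.bval_imp,
    BStr.bval_fSubset, BStr.bval_fMem, BStr.bval_fRel, BStr.bval_fOmega, bval_fLeCard,
    BStr.snoc_u1, BStr.snoc_last]

/-- The value of the sentence. -/
theorem bval_freeSentence (v : Empty → V) (xs : Fin 0 → V) :
    S.bval freeSentence v xs = bFree S := by
  simp only [freeSentence, bFree, BStr.bval_fAll, BStr.bval_fEx, BStr.bval_imp, BStr.bval_inf,
    bval_fIsOm, bval_fHart, bval_fSetMap, bval_fSmall, bval_fUncFree, BStr.snoc_u1,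
    BStr.snoc_last]

end values

end Pool.Agent.H.MP_5fddfa_lc.CR
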