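import Pool.Agent.H.MP_5fddfa_lc.CR.T2
import Pool.Agent.H.MP_5fddfa_lc.CR.PlainE
import Pool.Agent.H.MP_353193_lc.BV.T3

/-!
# The plain form of the sentence of the free set relation
-/

set_option autoImplicit false

namespace Pool.Agent.H.MP_5fddfa_lc.CR

open FirstOrder Pool.Agent.H.MP_8ff4bd_gt.M3 Pool.Agent.H.MP_353193_lc.BV
open Plain Pool.Agent.H.MP_353193_lc.BV.PlainE Pool.Agent.H.MP_5fddfa_lc.CR.PlainE

universe u

variable {M : Type u} (E : M → M → Prop)

theorem rel_hart (w s : M) : bHart (relStr E) w s ↔ IsHart E w s := by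
  simp only [bHart, IsHart, iInf_Prop_eq, inf_Prop_eq, himp_iff_imp, compl_iff_not,
    relStr_mem, rel_ord, rel_leCard, and_assoc]

theorem rel_isVal (s f x a : M) : bIsVal (relStr E) s f x a ↔ IsVal E s f x a := by
  simp only [bIsVal, IsVal, iInf_Prop_eq, inf_Prop_eq, bihimp_iff_iff, relStr_mem, rel_inRel]

theorem rel_inter (s f X a : M) : bInter (relStr E) s f X a ↔ IsInter E s f X a := by
  simp only [bInter, IsInter, iInf_Prop_eq, inf_Prop_eq, bihimp_iff_iff, himp_iff_imp,
    relStr_mem, rel_inRel]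

theorem rel_setMap (w s f : M) : bSetMap (relStr E) w s f ↔ SetMapping E w s f := by
  simp only [bSetMap, SetMapping, iInf_Prop_eq, inf_Prop_eq, himp_iff_imp, compl_iff_not,
    relStr_mem, rel_inRel, rel_isVal, rel_leCard]

theorem rel_small (w s f : M) : bSmall (relStr E) w s f ↔ SmallInter E w s f := by
  simp only [bSmall, SmallInter, iInf_Prop_eq, iSup_Prop_eq, inf_Prop_eq, himp_iff_imp,
    relStr_mem, rel_sub, rel_inter, rel_leCard, and_imp]

theorem rel_uncFree (s f F : M) : bUncFree (relStr E) s f F ↔ UncFree E s f F := by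
  simp only [bUncFree, UncFree, iInf_Prop_eq, inf_Prop_eq, himp_iff_imp, compl_iff_not,
    relStr_mem, rel_sub, rel_omega, rel_leCard, rel_inRel, and_assoc, and_imp]

theorem bFree_relStr : bFree (relStr E) ↔ FreeArrow E := by
  simp only [bFree, FreeArrow, iInf_Prop_eq, iSup_Prop_eq, inf_Prop_eq, himp_iff_imp, rel_isOm,
    rel_hart, rel_setMap, rel_small, rel_uncFree, and_imp]

/-- The sentence says in every structure what it should. -/
theorem sat_freeSentence_iff : Sat E freeSentence ↔ FreeArrow E := by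
  rw [sat_iff_bval, bval_freeSentence, bFree_relStr]

end Pool.Agent.H.MP_5fddfa_lc.CR
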