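import Pool.Agent.H.MP_353193_lc.BV.TA2
import Pool.Agent.H.MP_5fddfa_lc.CR.PlainE

/-!
# Cardinality in the universe `ZFSet`; the cardinal after `ω_ω`
-/

set_option autoImplicit false

namespace Pool.Agent.H.MP_5fddfa_lc.CR

open Cardinal Pool.Agent.H.MP_8ff4bd_gt.M3.Plain Pool.Agent.H.MP_353193_lc.BV
open Pool.Agent.H.MP_353193_lc (omω)
open Pool.Agent.H.MP_353193_lc.BV.PlainE (LeCard)
open Pool.Agent.H.MP_5fddfa_lc.CR.PlainE

/-- `|a| ≤ |b|` in the universe of sets. -/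
theorem leCard_sets (a b : ZFSet.{0}) : LeCard EZ a b ↔ #{x // x ∈ a} ≤ #{y // y ∈ b} := by
  unfold LeCard
  simp only [inRel_iff]
  constructor
  · rintro ⟨r, h1, h2⟩
    choose f hf using h1
    have hinj : Function.Injective
        (fun x : {x // x ∈ a} => (⟨f x.1 x.2, (hf x.1 x.2).1⟩ : {y // y ∈ b})) := by
      intro x x' h
      have h3 : f x.1 x.2 = f x'.1 x'.2 := congrArg Subtype.val h
      exact Subtype.ext (h2 x.1 x'.1 _ x.2 x'.2 (hf x.1 x.2).1 (hf x.1 x.2).2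
        (by rw [h3]; exact (hf x'.1 x'.2).2))
    exact Cardinal.mk_le_of_injective hinj
  · rintro ⟨g⟩
    have hr : ∀ x y : ZFSet.{0}, ZFSet.pair x y ∈ ZFSet.sep
        (fun p => ∃ x : {x // x ∈ a}, ZFSet.pair x.1 (g x).1 = p) (ZFSet.prod a b) ↔
        ∃ x' : {x // x ∈ a}, x'.1 = x ∧ (g x').1 = y := by
      intro x y
      rw [ZFSet.mem_sep, ZFSet.pair_mem_prod]
      constructor
      · rintro ⟨_, x', h⟩
        rw [ZFSet.pair_inj] at h
        exact ⟨x', h⟩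
      · rintro ⟨x', rfl, rfl⟩
        exact ⟨⟨x'.2, (g x').2⟩, x', rfl⟩
    refine ⟨_, fun x hx => ⟨(g ⟨x, hx⟩).1, (g ⟨x, hx⟩).2, (hr _ _).2 ⟨⟨x, hx⟩, rfl, rfl⟩⟩, ?_⟩
    intro x x' y _ _ _ h h'
    obtain ⟨z, rfl, h2⟩ := (hr _ _).1 h
    obtain ⟨z', rfl, h3⟩ := (hr _ _).1 h'
    rw [g.injective (Subtype.ext (h2.trans h3.symm))]

/-- The element of an ordinal as a von Neumann ordinal. -/
noncomputable def ez {o : Ordinal.{0}} (ν : o.ToType) : ZFSet.{0} :=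
  (Ordinal.ToType.toOrd ν : Set.Iio _).1.toZFSet

theorem ez_inj {o : Ordinal.{0}} {μ ν : o.ToType} (h : ez μ = ez ν) : μ = ν :=
  Ordinal.ToType.mk.symm.injective (Subtype.ext (Ordinal.toZFSet_injective h))

theorem mem_ez {o : Ordinal.{0}} {z : ZFSet.{0}} : z ∈ o.toZFSet ↔ ∃ ν : o.ToType, ez ν = z := by
  rw [Ordinal.mem_toZFSet_iff]
  constructor
  · rintro ⟨a, ha, rfl⟩
    have ha' : a ∈ Set.Iio o := ha
    refine ⟨Ordinal.ToType.mk ⟨a, ha'⟩, ?_⟩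
    have h5 : Ordinal.ToType.toOrd (Ordinal.ToType.mk ⟨a, ha'⟩) = (⟨a, ha'⟩ : Set.Iio _) :=
      Ordinal.ToType.mk.symm_apply_apply _
    exact congrArg (fun z : Set.Iio o => z.1.toZFSet) h5
  · rintro ⟨ν, rfl⟩
    exact ⟨_, (Ordinal.ToType.toOrd ν).2, rfl⟩

/-- The subset of the ordinal `o` given by a set of elements of `o`. -/
noncomputable def sZ {o : Ordinal.{0}} (X : Set o.ToType) : ZFSet.{0} :=
  ZFSet.sep (fun z => ∃ ν ∈ X, ez ν = z) o.toZFSet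

theorem mem_sZ {o : Ordinal.{0}} {X : Set o.ToType} {z : ZFSet.{0}} :
    z ∈ sZ X ↔ ∃ ν ∈ X, ez ν = z := by
  unfold sZ
  rw [ZFSet.mem_sep]
  refine ⟨fun h => h.2, fun h => ⟨?_, h⟩⟩
  obtain ⟨ν, _, hν⟩ := h
  exact mem_ez.2 ⟨ν, hν⟩

theorem ez_mem_sZ {o : Ordinal.{0}} {X : Set o.ToType} {ν : o.ToType} : ez ν ∈ sZ X ↔ ν ∈ X := by
  rw [mem_sZ]
  constructor
  · rintro ⟨μ, h, h'⟩
    rwa [← ez_inj h']
  · exact fun h => ⟨ν, h, rfl⟩

theorem sZ_sub {o : Ordinal.{0}} (X : Set o.ToType) : sZ X ⊆ o.toZFSet := by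
  rw [ZFSet.subset_def]
  intro z hz
  obtain ⟨ν, _, hν⟩ := mem_sZ.1 hz
  exact mem_ez.2 ⟨ν, hν⟩

/-- A subset of the ordinal `o` is given by its set of elements. -/
theorem eq_sZ {o : Ordinal.{0}} {z : ZFSet.{0}} (h : z ⊆ o.toZFSet) :
    z = sZ {ν : o.ToType | ez ν ∈ z} := by
  apply ZFSet.ext
  intro y
  rw [mem_sZ]
  constructor
  · intro hy
    obtain ⟨ν, rfl⟩ := mem_ez.1 (h hy)
    exact ⟨ν, hy, rfl⟩
  · rintro ⟨ν, h1, rfl⟩
    exact h1

theorem mk_sZ {o : Ordinal.{0}} (X : Set o.ToType) :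
    #{z // z ∈ sZ X} = Cardinal.lift.{1} #X := by
  have e : ULift.{1} X ≃ {z // z ∈ sZ X} := Equiv.ofBijective
    (fun ν => ⟨ez ν.down.1, ez_mem_sZ.2 ν.down.2⟩) (by
      constructor
      · intro μ ν h
        exact ULift.ext _ _ (Subtype.ext (ez_inj (congrArg Subtype.val h)))
      · rintro ⟨z, hz⟩
        obtain ⟨ν, h, rfl⟩ := mem_sZ.1 hz
        exact ⟨⟨⟨ν, h⟩⟩, rfl⟩)
  rw [← Cardinal.mk_congr e, Cardinal.mk_uLift]

theorem mk_toZFSet (o : Ordinal.{0}) : #{z // z ∈ o.toZFSet} = Cardinal.lift.{1} o.card := by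
  have h : o.toZFSet = sZ (Set.univ : Set o.ToType) := by
    rw [eq_sZ (o := o) (z := o.toZFSet) (ZFSet.subset_def.2 fun _ h => h)]
    congr 1
    exact Set.eq_univ_of_forall fun ν => mem_ez.2 ⟨ν, rfl⟩
  rw [h, mk_sZ, Cardinal.mk_univ, Cardinal.mk_toType]

theorem leCard_sZ_ord {o a : Ordinal.{0}} (X : Set o.ToType) :
    LeCard EZ (sZ X) a.toZFSet ↔ #X ≤ a.card := by
  rw [leCard_sets, mk_sZ, mk_toZFSet, Cardinal.lift_le]

theorem leCard_ord_sZ {o a : Ordinal.{0}} (X : Set o.ToType) :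
    LeCard EZ a.toZFSet (sZ X) ↔ a.card ≤ #X := by
  rw [leCard_sets, mk_sZ, mk_toZFSet, Cardinal.lift_le]

theorem isCtbl_sZ {o : Ordinal.{0}} (X : Set o.ToType) : IsCtbl EZ (sZ X) ↔ #X ≤ ℵ₀ := by
  have h : IsCtbl EZ (sZ X) ↔ LeCard EZ (sZ X) (Ordinal.omega0.{0}).toZFSet := by
    unfold IsCtbl LeCard
    constructor
    · rintro ⟨w, r, hw, h1, h2⟩
      rw [isOmega_iff] at hw
      subst hw
      exact ⟨r, h1, h2⟩
    · rintro ⟨r, h1, h2⟩
      exact ⟨_, r, (isOmega_iff _).2 rfl, h1, h2⟩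
  rw [h, leCard_sZ_ord, Ordinal.card_omega0]

/-- The ordinal `ω_{ω+1}`. -/
noncomputable abbrev os : Ordinal.{0} := (Cardinal.aleph (Ordinal.omega0.{0} + 1)).ord

theorem card_omω : omω.card = Cardinal.aleph Ordinal.omega0.{0} := by
  unfold omω
  rw [Cardinal.card_ord]

theorem card_os : os.card = Cardinal.aleph (Ordinal.omega0.{0} + 1) := Cardinal.card_ord _

theorem omω_lt_os : Cardinal.aleph Ordinal.omega0.{0} < Cardinal.aleph (Ordinal.omega0.{0} + 1) := by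
  rw [← Cardinal.succ_aleph]
  exact Order.lt_succ _

theorem isHart_iff (s : ZFSet.{0}) : IsHart EZ omω.toZFSet s ↔ s = os.toZFSet := by
  unfold IsHart
  constructor
  · rintro ⟨h1, h2, h3⟩
    obtain ⟨o, rfl⟩ := (isOrd_iff s).1 h1
    rw [leCard_iff, card_omω, not_le] at h2
    have h4 : os ≤ o := by
      rw [Cardinal.ord_le, ← Cardinal.succ_aleph, Order.succ_le_iff]
      exact h2
    rcases h4.lt_or_eq with h5 | h5
    · have h6 := h3 _ (Ordinal.toZFSet_mem_toZFSet_iff.2 h5)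
      rw [leCard_iff, card_omω, card_os] at h6
      exact absurd omω_lt_os (not_lt.2 h6)
    · rw [h5]
  · rintro rfl
    refine ⟨(isOrd_iff _).2 ⟨_, rfl⟩, ?_, fun y hy => ?_⟩
    · rw [leCard_iff, card_omω, card_os, not_le]
      exact omω_lt_os
    · obtain ⟨a, ha, rfl⟩ := Ordinal.mem_toZFSet_iff.1 hy
      rw [leCard_iff, card_omω, ← Order.lt_succ_iff, Cardinal.succ_aleph]
      exact Cardinal.lt_ord.1 ha

end Pool.Agent.H.MP_5fddfa_lc.CR
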