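import Pool.Agent.H.MP_5fddfa_lc.CR.TA1
import Pool.Agent.H.MP_5fddfa_lc.CR.T3
import Pool.Agent.H.MP_5fddfa_lc.CR.Rel

/-!
# The sentence in the universe of sets is the free set relation
-/

set_option autoImplicit false

namespace Pool.Agent.H.MP_5fddfa_lc.CR

open Cardinal Pool.Agent.H.MP_8ff4bd_gt.M3 Pool.Agent.H.MP_8ff4bd_gt.M3.Plain
open Pool.Agent.H.MP_353193_lc.BV
open Pool.Agent.H.MP_353193_lc (omω)
open Pool.Agent.H.MP_353193_lc.BV.PlainE (LeCard)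
open Pool.Agent.H.MP_5fddfa_lc.CR.PlainE

/-- The relation for one carrier. -/
def FreeRelOn (S : Type) (κ η θ ι : Cardinal.{0}) : Prop :=
  ∀ f : S → Set S, (∀ x, x ∉ f x) → (∀ x, #(f x) < κ) →
    (∀ X : Set S, #X = η → #(⋂ x ∈ X, f x : Set S) < θ) →
    ∃ F : Set S, #F = ι ∧ ∀ x ∈ F, ∀ y ∈ F, x ∉ f y

theorem freeRel_iff_on {S : Type} {κ η θ ι : Cardinal.{0}} (hS : #S = κ) :
    FreeRel κ η θ ι ↔ FreeRelOn S κ η θ ι := by
  constructor
  · intro h f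
    exact h S f hS
  · intro h T f hT h1 h2 h3
    obtain ⟨e⟩ := Cardinal.eq.1 (hS.trans hT.symm)
    have hmk : ∀ X : Set S, #(e '' X : Set T) = #X := fun X => Cardinal.mk_image_eq e.injective
    have hmk' : ∀ X : Set T, #(e ⁻¹' X : Set S) = #X := fun X => by
      rw [← hmk (e ⁻¹' X), Set.image_preimage_eq X e.surjective]
    obtain ⟨F, hF, hF'⟩ := h (fun x => e ⁻¹' (f (e x))) (fun x => h1 (e x))
      (fun x => by rw [hmk']; exact h2 (e x)) (fun X hX => by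
        have h4 := h3 (e '' X) (by rw [hmk]; exact hX)
        have h5 : (⋂ x ∈ X, e ⁻¹' (f (e x)) : Set S) = e ⁻¹' (⋂ x ∈ e '' X, f x) := by
          ext y
          simp only [Set.mem_iInter, Set.mem_preimage]
          constructor
          · rintro h z ⟨x, hx, rfl⟩
            exact h x hx
          · exact fun h x hx => h _ ⟨x, hx, rfl⟩
        rw [h5, hmk']
        exact h4)
    refine ⟨e '' F, by rw [hmk]; exact hF, ?_⟩
    rintro _ ⟨x, hx, rfl⟩ _ ⟨y, hy, rfl⟩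
    exact hF' x hx y hy

/-- The set of ordered pairs that gives a set mapping. -/
noncomputable def rZ (f : os.ToType → Set os.ToType) : ZFSet.{0} :=
  ZFSet.sep (fun p => ∃ x y, y ∈ f x ∧ ZFSet.pair (ez x) (ez y) = p)
    (ZFSet.prod os.toZFSet os.toZFSet)

theorem mem_rZ {f : os.ToType → Set os.ToType} {x y : os.ToType} :
    InRel EZ (rZ f) (ez x) (ez y) ↔ y ∈ f x := by
  rw [inRel_iff]
  unfold rZ
  rw [ZFSet.mem_sep, ZFSet.pair_mem_prod]
  constructor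
  · rintro ⟨_, x', y', h, h'⟩
    rw [ZFSet.pair_inj] at h'
    rwa [← ez_inj h'.1, ← ez_inj h'.2]
  · exact fun h => ⟨⟨mem_ez.2 ⟨x, rfl⟩, mem_ez.2 ⟨y, rfl⟩⟩, x, y, h, rfl⟩

section

variable {g : ZFSet.{0}} {f : os.ToType → Set os.ToType}
  (hg : ∀ x y : os.ToType, InRel EZ g (ez x) (ez y) ↔ y ∈ f x)

include hg

theorem val_iff (x : os.ToType) (u : ZFSet.{0}) :
    IsVal EZ os.toZFSet g (ez x) u ↔ u = sZ (f x) := by
  unfold IsVal
  rw [ZFSet.ext_iff]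
  refine forall_congr' fun y => iff_congr Iff.rfl ?_
  rw [mem_sZ]
  constructor
  · rintro ⟨h1, h2⟩
    obtain ⟨ν, rfl⟩ := mem_ez.1 h1
    exact ⟨ν, (hg x ν).1 h2, rfl⟩
  · rintro ⟨ν, h, rfl⟩
    exact ⟨mem_ez.2 ⟨ν, rfl⟩, (hg x ν).2 h⟩

theorem inter_iff (X : Set os.ToType) (u : ZFSet.{0}) :
    IsInter EZ os.toZFSet g (sZ X) u ↔ u = sZ (⋂ x ∈ X, f x) := by
  unfold IsInter
  rw [ZFSet.ext_iff]
  refine forall_congr' fun y => iff_congr Iff.rfl ?_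
  rw [mem_sZ]
  constructor
  · rintro ⟨h1, h2⟩
    obtain ⟨ν, rfl⟩ := mem_ez.1 h1
    refine ⟨ν, ?_, rfl⟩
    simp only [Set.mem_iInter]
    exact fun x hx => (hg x ν).1 (h2 _ (ez_mem_sZ.2 hx))
  · rintro ⟨ν, h, rfl⟩
    simp only [Set.mem_iInter] at h
    refine ⟨mem_ez.2 ⟨ν, rfl⟩, fun z hz => ?_⟩
    obtain ⟨x, hx, rfl⟩ := mem_sZ.1 hz
    exact (hg x ν).2 (h x hx)

theorem setMapping_iff : SetMapping EZ omω.toZFSet os.toZFSet g ↔
    (∀ x, x ∉ f x) ∧ ∀ x, #(f x) < Cardinal.aleph (Ordinal.omega0.{0} + 1) := by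
  unfold SetMapping
  constructor
  · intro h
    refine ⟨fun x hx => (h _ (mem_ez.2 ⟨x, rfl⟩)).1 ((hg x x).2 hx), fun x => ?_⟩
    have h1 := (h _ (mem_ez.2 ⟨x, rfl⟩)).2 _ ((val_iff hg x _).2 rfl)
    rwa [leCard_sZ_ord, card_omω, ← Order.lt_succ_iff, Cardinal.succ_aleph] at h1
  · rintro ⟨h1, h2⟩ y hy
    obtain ⟨x, rfl⟩ := mem_ez.1 hy
    refine ⟨fun hr => h1 x ((hg x x).1 hr), fun u hu => ?_⟩
    rw [val_iff hg] at hu
    subst hu
    rw [leCard_sZ_ord, card_omω, ← Order.lt_succ_iff, Cardinal.succ_aleph]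
    exact h2 x

theorem small_iff : SmallInter EZ omω.toZFSet os.toZFSet g ↔
    ∀ X : Set os.ToType, #X = Cardinal.aleph Ordinal.omega0.{0} →
      #(⋂ x ∈ X, f x : Set os.ToType) < Cardinal.aleph Ordinal.omega0.{0} := by
  unfold SmallInter
  constructor
  · intro h X hX
    obtain ⟨c, hc, hle⟩ := h (sZ X) ((isSub_iff _ _).2 (sZ_sub X))
      ((leCard_sZ_ord X).2 (by rw [card_omω]; exact hX.le))
      ((leCard_ord_sZ X).2 (by rw [card_omω]; exact hX.ge)) _ ((inter_iff hg X _).2 rfl)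
    obtain ⟨γ, hγ, rfl⟩ := Ordinal.mem_toZFSet_iff.1 hc
    rw [leCard_sZ_ord] at hle
    exact hle.trans_lt (Cardinal.lt_ord.1 hγ)
  · intro h Y hY h1 h2 u hu
    obtain ⟨X, rfl⟩ : ∃ X : Set os.ToType, Y = sZ X := ⟨_, eq_sZ ((isSub_iff _ _).1 hY)⟩
    rw [inter_iff hg] at hu
    subst hu
    rw [leCard_sZ_ord, card_omω] at h1
    rw [leCard_ord_sZ, card_omω] at h2
    have h3 := h X (le_antisymm h1 h2)
    refine ⟨(#(⋂ x ∈ X, f x : Set os.ToType)).ord.toZFSet,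
      Ordinal.toZFSet_mem_toZFSet_iff.2 (Cardinal.ord_lt_ord.2 h3), ?_⟩
    rw [leCard_sZ_ord, Cardinal.card_ord]

theorem free_iff : (∃ F, UncFree EZ os.toZFSet g F) ↔
    ∃ F : Set os.ToType, #F = Cardinal.aleph 1 ∧ ∀ x ∈ F, ∀ y ∈ F, x ∉ f y := by
  unfold UncFree
  constructor
  · rintro ⟨G, h1, h3, h2⟩
    obtain ⟨F, rfl⟩ : ∃ F : Set os.ToType, G = sZ F := ⟨_, eq_sZ ((isSub_iff _ _).1 h1)⟩
    have h4 := h2 _ ((isOmega_iff _).2 rfl)
    rw [leCard_sZ_ord, Ordinal.card_omega0, not_le, ← Order.succ_le_iff,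
      Cardinal.succ_aleph0] at h4
    obtain ⟨F', hF', hF⟩ := le_mk_iff_exists_subset.1 h4
    refine ⟨F', hF, fun x hx y hy hxy => ?_⟩
    exact h3 _ _ (ez_mem_sZ.2 (hF' hy)) (ez_mem_sZ.2 (hF' hx)) ((hg y x).2 hxy)
  · rintro ⟨F, hF, h⟩
    refine ⟨sZ F, (isSub_iff _ _).2 (sZ_sub F), fun a b ha hb hab => ?_, fun o ho => ?_⟩
    · obtain ⟨x, hx, rfl⟩ := mem_sZ.1 ha
      obtain ⟨y, hy, rfl⟩ := mem_sZ.1 hb
      exact h y hy x hx ((hg x y).1 hab)
    · rw [isOmega_iff] at ho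
      subst ho
      rw [leCard_sZ_ord, Ordinal.card_omega0, hF, not_le]
      exact Cardinal.aleph0_lt_aleph_one

end

/-- The free set relation in the universe of sets. -/
theorem freeArrow_iff : FreeArrow EZ ↔
    FreeRel.{0} (Cardinal.aleph (Ordinal.omega0.{0} + 1)) (Cardinal.aleph Ordinal.omega0.{0})
      (Cardinal.aleph Ordinal.omega0.{0}) (Cardinal.aleph 1) := by
  have hw : FreeArrow EZ ↔ ∀ g, SetMapping EZ omω.toZFSet os.toZFSet g →
      SmallInter EZ omω.toZFSet os.toZFSet g → ∃ F, UncFree EZ os.toZFSet g F := by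
    unfold FreeArrow
    simp only [isOmegaOmega_iff, forall_eq, isHart_iff]
  rw [hw, freeRel_iff_on (S := os.ToType) (by rw [Cardinal.mk_toType, card_os])]
  constructor
  · intro h f h1 h2 h3
    have hg : ∀ x y : os.ToType, InRel EZ (rZ f) (ez x) (ez y) ↔ y ∈ f x := fun x y => mem_rZ
    exact (free_iff hg).1 (h (rZ f) ((setMapping_iff hg).2 ⟨h1, h2⟩) ((small_iff hg).2 h3))
  · intro h g h1 h2
    have hg : ∀ x y : os.ToType, InRel EZ g (ez x) (ez y) ↔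
        y ∈ (fun x => {y | InRel EZ g (ez x) (ez y)} : os.ToType → Set os.ToType) x :=
      fun x y => Iff.rfl
    have h3 := (setMapping_iff hg).1 h1
    exact (free_iff hg).2 (h _ h3.1 h3.2 ((small_iff hg).1 h2))

/-- In the universe `ZFSet` of sets the sentence is the relation `(ℵ_{ω+1}, ℵ_ω, ℵ_ω) → ℵ₁`. -/
theorem sat_ZFSet_freeSentence :
    Sat (M := ZFSet.{0}) (fun x y => x ∈ y) freeSentence ↔
      FreeRel.{0} (Cardinal.aleph (Ordinal.omega0.{0} + 1)) (Cardinal.aleph Ordinal.omega0.{0})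
        (Cardinal.aleph Ordinal.omega0.{0}) (Cardinal.aleph 1) := by
  rw [sat_freeSentence_iff]
  exact freeArrow_iff

end Pool.Agent.H.MP_5fddfa_lc.CR
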