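import Pool.Agent.H.MP_353193_lc.BV.TN

/-!
# The free set relation in an arbitrary `B`-valued structure

The relation `(ℵ_{ω+1}, ℵ_ω, ℵ_ω) → ℵ₁`. Here `w = ω_ω` (`bIsOm`), `s = ω_{ω+1}` (the least ordinal which does not inject
into `w`), and a set mapping on `s` is given by a relation `f` (a set of ordered pairs): `y ∈ f(x)` means `y ∈ s` and
`(x, y) ∈ f`.
-/

set_option autoImplicit false

namespace Pool.Agent.H.MP_5fddfa_lc.CR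

open Pool.Agent.H.MP_8ff4bd_gt.M3 Pool.Agent.H.MP_353193_lc.BV
open scoped symmDiff

universe u v

section notions

variable {B : Type u} [CompleteBooleanAlgebra B] {V : Type v} (S : BStr B V)

/-- `s` is the least ordinal which does not inject into `w` (for an infinite cardinal `w`: `s = w⁺`) -/
def bHart (w s : V) : B :=
  S.bOrd s ⊓ (bLeCard S s w)ᶜ ⊓ ⨅ c, (S.mem c s ⇨ bLeCard S c w)

/-- `a = f(x) = {y ∈ s : (x, y) ∈ f}` -/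
def bIsVal (s f x a : V) : B := ⨅ y, (S.mem y a ⇔ (S.mem y s ⊓ S.bRel f x y))

/-- `f` is a set mapping on `s` of order `w⁺`: for all `x ∈ s`, `x ∉ f(x)` and `|f(x)| ≤ |w|` -/
def bSetMap (w s f : V) : B :=
  ⨅ x, (S.mem x s ⇨ (S.bRel f x x)ᶜ ⊓ ⨅ a, (bIsVal S s f x a ⇨ bLeCard S a w))

/-- `a = ⋂_{x ∈ X} f(x)` (for nonempty `X ⊆ s`) -/
def bInter (s f X a : V) : B :=
  ⨅ y, (S.mem y a ⇔ (S.mem y s ⊓ ⨅ x, (S.mem x X ⇨ S.bRel f x y)))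

/-- `|⋂_{x ∈ X} f(x)| < w` for all `X ⊆ s` with `|X| = |w|` -/
def bSmall (w s f : V) : B :=
  ⨅ X, (S.bSubset X s ⊓ bLeCard S X w ⊓ bLeCard S w X ⇨
    ⨅ a, (bInter S s f X a ⇨ ⨆ c, S.mem c w ⊓ bLeCard S a c))

/-- `F` is an uncountable subset of `s` which is free for `f` -/
def bUncFree (s f F : V) : B :=
  S.bSubset F s ⊓ (⨅ x, ⨅ y, (S.mem x F ⊓ S.mem y F ⇨ (S.bRel f x y)ᶜ)) ⊓
    ⨅ o, (S.bOmega o ⇨ (bLeCard S F o)ᶜ)

/-- The statement `(ℵ_{ω+1}, ℵ_ω, ℵ_ω) → ℵ₁`. -/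
def bFree : B :=
  ⨅ w, (bIsOm S w ⇨ ⨅ s, (bHart S w s ⇨ ⨅ f, (bSetMap S w s f ⊓ bSmall S w s f ⇨
    ⨆ F, bUncFree S s f F)))

end notions

end Pool.Agent.H.MP_5fddfa_lc.CR
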